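import Pool.Agent.H81.NCH.Stmts

/-!
# RKA: rank of a sum
-/

set_option autoImplicit false

namespace Pool.Agent.H81.NCH

universe u

namespace RKA

/-- rank of a sum of two matrices -/
theorem rank_add_le {K : Type u} [Field K] {A B : Type} [Fintype B]
    (M N : Matrix A B K) : (M + N).rank ≤ M.rank + N.rank := by
  unfold Matrix.rank
  have h1 : LinearMap.range (M + N).mulVecLin ≤
      LinearMap.range M.mulVecLin ⊔ LinearMap.range N.mulVecLin := by
    rintro x ⟨v, rfl⟩
    rw [Matrix.mulVecLin_add, LinearMap.add_apply]
    exact Submodule.add_mem_sup ⟨v, rfl⟩ ⟨v, rfl⟩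
  haveI : FiniteDimensional K (LinearMap.range M.mulVecLin) := by infer_instance
  haveI : FiniteDimensional K (LinearMap.range N.mulVecLin) := by infer_instance
  exact le_trans (Submodule.finrank_mono h1)
    (Submodule.finrank_add_le_finrank_add_finrank _ _)

/-- rank of a finite sum of matrices -/
theorem rank_sum_le {K : Type u} [Field K] {A B ι : Type} [Fintype B]
    (s : Finset ι) (M : ι → Matrix A B K) :
    (∑ j ∈ s, M j).rank ≤ ∑ j ∈ s, (M j).rank := by
  classical
  induction s using Finset.induction_on with
  | empty => simp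
  | insert a s ha ih =>
      rw [Finset.sum_insert ha, Finset.sum_insert ha]
      exact le_trans (rank_add_le _ _) (Nat.add_le_add_left ih _)

end RKA

theorem rka_thm : RKAStmt.{u} := by
  intro K _ h m n _ r ι s F
  unfold rk
  have e : (Matrix.of fun (y z : Fin (dd h m) → Fin n) =>
      (fun w => ∑ j ∈ s, F j w) (mixW h m r (ext y) (ext z))) =
      ∑ j ∈ s, Matrix.of fun (y z : Fin (dd h m) → Fin n) =>
        F j (mixW h m r (ext y) (ext z)) := by
    ext y z
    rw [Matrix.sum_apply]
    rfl
  rw [e]
  exact RKA.rank_sum_le s _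

end Pool.Agent.H81.NCH
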